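import Pool.Agent.Work.MP_959bfa_wn.Interface

/-!
MP_959bfa_co, block THB: disjoint subfamilies of families of bounded depth.
-/

namespace Wn

open Finset

theorem thb_cr_irrefl {ι : Type} (R : ι → Bx) (i : ι) : ¬ Cr R i i := fun h => lt_irrefl _ h.1

theorem thb_cr_asymm {ι : Type} {R : ι → Bx} {i j : ι} (h : Cr R i j) : ¬ Cr R j i :=
  fun h' => lt_irrefl _ (h.1.trans h'.1)

/-- slack zero is impossible -/
theorem thb_sm_zero {ι : Type} (R : ι → Bx) (J : Finset ι) (i : ι) (hi : i ∈ J) :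
    ¬ Sm R J 0 i := by
  classical
  rintro ⟨m, ⟨x, hx1, hx2, hx⟩, ⟨y, hy1, hy2, hy⟩⟩
  have h1 := hx y hy1 hy2
  have hi' : i ∉ fl J (fun j => Cr R i j ∧ (R j).b ≤ y ∧ y ≤ (R j).t) := by
    intro h
    exact thb_cr_irrefl R i (mem_fl.1 h).2.1
  have hsub : insert i (fl J (fun j => Cr R i j ∧ (R j).b ≤ y ∧ y ≤ (R j).t)) ⊆
      fl J (fun j => In (R j) x y ∧ ¬ Cr R j i) := by
    intro j hj
    rcases Finset.mem_insert.1 hj with rfl | hj
    · exact mem_fl.2 ⟨hi, ⟨hx1, hx2, hy1, hy2⟩, thb_cr_irrefl R j⟩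
    · obtain ⟨hjJ, hc, hb, ht⟩ := mem_fl.1 hj
      exact mem_fl.2 ⟨hjJ, ⟨hc.1.le.trans hx1, hx2.trans hc.2.1.le, hb, ht⟩, thb_cr_asymm hc⟩
  have h2 := Finset.card_le_card hsub
  rw [Finset.card_insert_of_notMem hi'] at h2
  omega

/-- slack is monotone -/
theorem thb_sm_mono {ι : Type} {R : ι → Bx} {J : Finset ι} {s s' : ℕ} {i : ι} (hs : s ≤ s')
    (h : Sm R J s i) : Sm R J s' i := by
  obtain ⟨m, hP, y, hy1, hy2, hy⟩ := h
  exact ⟨m, hP, y, hy1, hy2, le_trans (by omega) hy⟩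

theorem thb_db_mono {w c c' : ℕ} (hc : c ≤ c') (h : DB w c) : DB w c' := by
  intro ι R J hN hD
  obtain ⟨T, hT, hI, hcard⟩ := h ι R J hN hD
  refine ⟨T, hT, hI, hcard.trans ?_⟩
  exact Nat.mul_le_mul_right _ (Nat.mul_le_mul_right _ hc)

theorem thb_depth_mono {ι : Type} {R : ι → Bx} {J J' : Finset ι} {w : ℕ} (h : J' ⊆ J)
    (hD : DepthLe R J w) : DepthLe R J' w := by
  intro x y
  refine le_trans (Finset.card_le_card ?_) (hD x y)
  intro j hj
  obtain ⟨h1, h2⟩ := mem_fl.1 hj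
  exact mem_fl.2 ⟨h h1, h2⟩

/-- the base of the recursion -/
theorem thb_base (h1 : stmt_RED) (h3 : stmt_CASEL) {lam w : ℕ} (hlam : 1 ≤ lam) (hw : w ≤ lam) :
    DB w (400000 * lam ^ 3) := by
  intro ι R J hN hD
  obtain ⟨J', hJ', hc, hdeg⟩ := h1 ι R J w hN hD
  obtain ⟨T, hT, hI, hcard⟩ := h3 ι R J' J' w lam 1 (Finset.Subset.refl _)
    (fun i hi => hN i (hJ' hi)) (thb_depth_mono hJ' hD) le_rfl hlam (by omega) hdeg
    (fun i hi => thb_sm_zero R J' i hi) (by omega)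
  refine ⟨T, hT.trans hJ', hI, ?_⟩
  have h4 : 400000 * lam ^ 3 * w * T.card = 2 * (200000 * lam ^ 3 * w * T.card) := by ring
  rw [h4]
  omega

/-- one step of the recursion -/
theorem thb_step (h1 : stmt_RED) (h2 : stmt_CASEG) (h3 : stmt_CASEL) {lam w s c' : ℕ}
    (hlam : 1 ≤ lam) (hs : 1 ≤ s) (hw1 : w ≤ lam * s) (hw2 : lam * s ≤ 2 * w)
    (hDB : DB (8 * s) c') : DB w (max (400000 * lam ^ 3) (64 * c')) := by
  classical
  intro ι R J hN hD
  obtain ⟨J', hJ', hc, hdeg⟩ := h1 ι R J w hN hD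
  have hN' : ∀ i ∈ J', Ne (R i) := fun i hi => hN i (hJ' hi)
  have hD' := thb_depth_mono hJ' hD
  obtain ⟨G, hG⟩ : ∃ G : Finset ι, G = fl J' (fun i => Sm R J' (s - 1) i) := ⟨_, rfl⟩
  have hGJ : G ⊆ J' := by rw [hG]; exact fl_subset _ _
  obtain ⟨L, hL⟩ : ∃ L : Finset ι, L = J' \ G := ⟨_, rfl⟩
  have hLJ : L ⊆ J' := by rw [hL]; exact Finset.sdiff_subset
  have hLS : ∀ i ∈ L, ¬ Sm R J' (s - 1) i := by
    intro i hi hS
    rw [hL, Finset.mem_sdiff] at hi
    apply hi.2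
    rw [hG]
    exact mem_fl.2 ⟨hi.1, hS⟩
  have hsum : L.card + G.card = J'.card := by
    rw [hL]
    exact Finset.card_sdiff_add_card_eq_card hGJ
  by_cases hcase : J'.card ≤ 2 * L.card
  · obtain ⟨T, hT, hI, hcard⟩ := h3 ι R J' L w lam s hLJ hN' hD' hs hlam hw1 hdeg hLS hcase
    refine ⟨T, hT.trans (hLJ.trans hJ'), hI, ?_⟩
    have h4 : 400000 * lam ^ 3 * w * T.card = 2 * (200000 * lam ^ 3 * w * T.card) := by ring
    have h5 : 400000 * lam ^ 3 * w * T.card ≤
        max (400000 * lam ^ 3) (64 * c') * w * T.card :=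
      Nat.mul_le_mul_right _ (Nat.mul_le_mul_right _ (le_max_left _ _))
    omega
  · obtain ⟨G', hG', hGc, hGD⟩ := h2 ι R J' G w lam s hGJ hN' hD' hs hw1 (by
      intro i hi
      rw [hG] at hi
      exact thb_sm_mono (by omega) (mem_fl.1 hi).2)
    obtain ⟨T, hT, hI, hcard⟩ := hDB ι R G' (fun i hi => hN' i (hGJ (hG' hi))) hGD
    refine ⟨T, hT.trans (hG'.trans (hGJ.trans hJ')), hI, ?_⟩
    have h5 : 64 * c' * w * T.card ≤ max (400000 * lam ^ 3) (64 * c') * w * T.card :=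
      Nat.mul_le_mul_right _ (Nat.mul_le_mul_right _ (le_max_right _ _))
    have h6 : J.card ≤ 4 * (lam * G'.card) := by omega
    have h7 : lam * G'.card ≤ lam * (c' * (8 * s) * T.card) := Nat.mul_le_mul_left _ hcard
    have h8 : 4 * (lam * (c' * (8 * s) * T.card)) = (lam * s) * (32 * c' * T.card) := by ring
    have h9 : (lam * s) * (32 * c' * T.card) ≤ (2 * w) * (32 * c' * T.card) :=
      Nat.mul_le_mul_right _ hw2
    have h10 : (2 * w) * (32 * c' * T.card) = 64 * c' * w * T.card := by ring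
    omega

/-- **THB** -/
theorem THB (h1 : stmt_RED) (h2 : stmt_CASEG) (h3 : stmt_CASEL) : stmt_THB := by
  refine ⟨400000, by norm_num, ?_⟩
  intro lam j
  induction j with
  | zero =>
    intro w hlam hw
    have hw' : w ≤ lam := by simpa using hw
    have h := thb_base h1 h3 (lam := lam) (w := w) (by omega) hw'
    simpa using h
  | succ j ih =>
    intro w hlam hw
    have hpos : 1 ≤ 64 ^ (j + 1) := Nat.one_le_pow _ _ (by norm_num)
    by_cases hwl : w ≤ lam
    · refine thb_db_mono ?_ (thb_base h1 h3 (lam := lam) (w := w) (by omega) hwl)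
      calc 400000 * lam ^ 3 = 400000 * 1 * lam ^ 3 := by ring
        _ ≤ 400000 * 64 ^ (j + 1) * lam ^ 3 :=
          Nat.mul_le_mul_right _ (Nat.mul_le_mul_left _ hpos)
    · push Not at hwl
      obtain ⟨s, hs⟩ : ∃ s, s = (w + lam - 1) / lam := ⟨_, rfl⟩
      have hlam0 : 0 < lam := by omega
      have hs1 : lam * s ≤ w + lam - 1 := by rw [hs]; exact Nat.mul_div_le _ _
      have hs2 : w + lam - 1 < lam * (s + 1) := by rw [hs]; exact Nat.lt_mul_div_succ _ hlam0
      have hs3 : lam * (s + 1) = lam * s + lam := by ring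
      have hw1 : w ≤ lam * s := by omega
      have hw2 : lam * s ≤ 2 * w := by omega
      have hs0 : 1 ≤ s := by
        by_contra h
        have h0 : s = 0 := by omega
        rw [h0] at hw1
        omega
      have hIH := ih (8 * s) hlam (by
        apply Nat.le_of_mul_le_mul_left _ hlam0
        calc lam * (8 * s * 16 ^ j) = (lam * s) * (8 * 16 ^ j) := by ring
          _ ≤ (2 * w) * (8 * 16 ^ j) := Nat.mul_le_mul_right _ hw2
          _ = w * 16 ^ (j + 1) := by ring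
          _ ≤ lam ^ (j + 1 + 1) := hw
          _ = lam * lam ^ (j + 1) := by ring)
      refine thb_db_mono ?_ (thb_step h1 h2 h3 (by omega) hs0 hw1 hw2 hIH)
      apply max_le
      · calc 400000 * lam ^ 3 = 400000 * 1 * lam ^ 3 := by ring
          _ ≤ 400000 * 64 ^ (j + 1) * lam ^ 3 :=
            Nat.mul_le_mul_right _ (Nat.mul_le_mul_left _ hpos)
      · apply le_of_eq
        ring

end Wn
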