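import Pool.Agent.Work.MP_959bfa_wn.Interface2
import Pool.Agent.Work.MP_959bfa_wn_helper39.THB

/-!
MP_959bfa_co, block THC: disjoint subfamilies of families of bounded depth, loss `(log w)^2`.
-/

namespace Wn

open Finset

/-- a popular value -/
theorem thc_pig {α : Type} (S : Finset α) (f : α → ℕ) (N : ℕ) (hN : 1 ≤ N)
    (h : ∀ i ∈ S, f i < N) : ∃ k, k < N ∧ S.card ≤ N * (fl S (fun i => f i = k)).card := by
  classical
  by_contra hno
  push Not at hno
  have h1 : S.card = ∑ k ∈ range N, (fl S (fun i => f i = k)).card := by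
    rw [Finset.card_eq_sum_card_fiberwise (f := f) (t := range N)
      (fun i hi => Finset.mem_coe.2 (Finset.mem_range.2 (h i hi)))]
    refine Finset.sum_congr rfl fun k _ => ?_
    congr 1
    ext i
    rw [mem_fl, Finset.mem_filter]
  have h2 : N * S.card < N * S.card := by
    calc N * S.card = ∑ k ∈ range N, N * (fl S (fun i => f i = k)).card := by
          rw [← Finset.mul_sum, ← h1]
      _ < ∑ _k ∈ range N, S.card :=
          Finset.sum_lt_sum_of_nonempty ⟨0, Finset.mem_range.2 hN⟩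
            (fun k hk => hno k (Finset.mem_range.1 hk))
      _ = N * S.card := by simp
  exact lt_irrefl _ h2

theorem thc_eta_le {ι : Type} {R : ι → Bx} {J : Finset ι} {w : ℕ} {i : ι} (hi : Ne (R i))
    (hD : DepthLe R J w) : eta R J i ≤ w := by
  classical
  by_cases h0 : eta R J i = 0
  · omega
  · have h1 : QH R J (eta R J i) i := by
      unfold eta at h0 ⊢
      exact Nat.findGreatest_of_ne_zero rfl h0
    obtain ⟨y, _, _, hy⟩ := h1
    refine hy.trans (le_trans (Finset.card_le_card ?_) (hD (R i).l y))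
    intro j hj
    obtain ⟨hjJ, hc, hb, ht⟩ := mem_fl.1 hj
    exact mem_fl.2 ⟨hjJ, hc.1.le, hi.1.trans hc.2.1.le, hb, ht⟩

theorem thc_sm_big {ι : Type} {R : ι → Bx} {J : Finset ι} {w s : ℕ} {i : ι} (hi : Ne (R i))
    (hD : DepthLe R J w) (hs : w ≤ s) : Sm R J s i := by
  refine ⟨w, ⟨(R i).l, le_rfl, hi.1, ?_⟩, ⟨(R i).b, le_rfl, hi.2, ?_⟩⟩
  · intro y _ _
    refine le_trans (Finset.card_le_card ?_) (hD (R i).l y)
    intro j hj
    obtain ⟨h1, h2, _⟩ := mem_fl.1 hj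
    exact mem_fl.2 ⟨h1, h2⟩
  · have : w - s = 0 := by omega
    rw [this]
    exact Nat.zero_le _

/-- the class of the slack -/
theorem thc_class {ι : Type} {R : ι → Bx} {J : Finset ι} {w b : ℕ} {i : ι} (hiJ : i ∈ J)
    (hi : Ne (R i)) (hD : DepthLe R J w) (hb : w ≤ 2 ^ b) :
    ∃ e, e < b + 1 ∧ Sm R J (2 ^ e) i ∧ ¬ Sm R J (2 ^ e / 2) i := by
  classical
  have hex : ∃ e, Sm R J (2 ^ e) i := ⟨b, thc_sm_big hi hD hb⟩
  refine ⟨Nat.find hex, ?_, Nat.find_spec hex, ?_⟩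
  · exact Nat.lt_succ_of_le (Nat.find_min' hex (thc_sm_big hi hD hb))
  · rcases Nat.eq_zero_or_pos (Nat.find hex) with h0 | h0
    · rw [h0]
      exact thb_sm_zero R J i hiJ
    · obtain ⟨e, he⟩ : ∃ e, Nat.find hex = e + 1 := ⟨Nat.find hex - 1, by omega⟩
      have h1 := Nat.find_min hex (m := e) (by omega)
      rw [he, pow_succ, Nat.mul_div_cancel _ (by norm_num)]
      exact h1

/-- **THC** -/
theorem THC (h1 : stmt_RED) (h2 : stmt_GRP) (h3 : stmt_CRC) (h4 : stmt_LRC) (h5 : stmt_IND) :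
    stmt_THC := by
  classical
  refine ⟨250000, by norm_num, ?_⟩
  intro w ι R J hN hD
  rcases Nat.eq_zero_or_pos w with hw0 | hw0
  · refine ⟨∅, Finset.empty_subset _, ?_, ?_⟩
    · intro i hi
      exact absurd hi (Finset.notMem_empty i)
    · have hJ : J = ∅ := by
        rw [Finset.eq_empty_iff_forall_notMem]
        intro i hi
        have h6 := hD (R i).l (R i).b
        have h7 : i ∈ fl J (fun j => In (R j) (R i).l (R i).b) :=
          mem_fl.2 ⟨hi, le_rfl, (hN i hi).1, le_rfl, (hN i hi).2⟩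
        have h8 := Finset.card_pos.2 ⟨i, h7⟩
        omega
      rw [hJ]
      simp
  obtain ⟨b, hb⟩ : ∃ b, b = Nat.log 2 w + 1 := ⟨_, rfl⟩
  have hb1 : 1 ≤ b := by omega
  have hwb : w < 2 ^ b := by rw [hb]; exact Nat.lt_pow_succ_log_self (by norm_num) w
  have hb2 : 2 ^ b ≤ 2 * w := by
    rw [hb, pow_succ, mul_comm]
    exact Nat.mul_le_mul_left 2 (Nat.pow_log_le_self 2 (by omega))
  obtain ⟨P, hPJ, hPc, hdeg⟩ := h1 ι R J w hN hD
  have hNP : ∀ i ∈ P, Ne (R i) := fun i hi => hN i (hPJ hi)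
  have hDP := thb_depth_mono hPJ hD
  -- the popular class of the slack
  have hex : ∀ i, ∃ e, i ∈ P → (e < b + 1 ∧ Sm R P (2 ^ e) i ∧ ¬ Sm R P (2 ^ e / 2) i) := by
    intro i
    by_cases hi : i ∈ P
    · obtain ⟨e, he⟩ := thc_class hi (hNP i hi) hDP hwb.le
      exact ⟨e, fun _ => he⟩
    · exact ⟨0, fun h => absurd h hi⟩
  choose ε hε using hex
  obtain ⟨e, heb, hPE⟩ := thc_pig P ε (b + 1) (by omega) (fun i hi => (hε i hi).1)
  obtain ⟨E, hE⟩ : ∃ E : Finset ι, E = fl P (fun i => ε i = e) := ⟨_, rfl⟩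
  rw [← hE] at hPE
  have hEP : E ⊆ P := by rw [hE]; exact fl_subset _ _
  obtain ⟨s, hs⟩ : ∃ s : ℕ, s = 2 ^ e := ⟨_, rfl⟩
  have hES : ∀ i ∈ E, Sm R P s i ∧ ¬ Sm R P (s / 2) i := by
    intro i hi
    rw [hE] at hi
    obtain ⟨hiP, hie⟩ := mem_fl.1 hi
    have h6 := hε i hiP
    rw [hie, ← hs] at h6
    exact h6.2
  have hs1 : 1 ≤ s := by rw [hs]; exact Nat.one_le_pow _ _ (by norm_num)
  have hs2 : s ≤ 2 * w := by
    have h6 : 2 ^ e ≤ 2 ^ b := Nat.pow_le_pow_right (by norm_num) (by omega)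
    omega
  obtain ⟨σ, hσ⟩ : ∃ σ : ℕ, σ = s / 2 / 2 + 1 := ⟨_, rfl⟩
  have hσ1 : 1 ≤ σ := by omega
  have hσs : σ ≤ s := by omega
  have hσ2 : 2 * σ ≤ s / 2 + 2 := by omega
  have hσ4 : s ≤ 4 * σ := by omega
  -- blocks
  obtain ⟨B, hB⟩ : ∃ B : ℕ → Finset ι, B = fun u => fl E (fun i => eta R P i / σ = u) :=
    ⟨_, rfl⟩
  have hBmem : ∀ u i, i ∈ B u ↔ i ∈ E ∧ eta R P i / σ = u := by
    intro u i
    rw [hB]
    exact mem_fl
  have hBD : ∀ u, DepthLe R (B u) (8 * s) := by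
    intro u
    refine thb_depth_mono ?_ (h2 ι R P s σ u hNP hσ1 hσs)
    intro i hi
    obtain ⟨hiE, hiu⟩ := (hBmem u i).1 hi
    exact mem_fl.2 ⟨hEP hiE, (hES i hiE).1, hiu⟩
  obtain ⟨d, hd⟩ : ∃ d : ι → ℕ, d = fun i =>
      (fl (B (eta R P i / σ)) (fun v => Cr R v i)).card := ⟨_, rfl⟩
  -- number of crossing pairs
  have hsum : ∑ i ∈ E, d i ≤ (fl (P ×ˢ P) (fun p => Cr R p.1 p.2 ∧ ¬ Sm R P (s / 2) p.2 ∧
      eta R P p.1 / σ = eta R P p.2 / σ)).card := by
    obtain ⟨X, hX⟩ : ∃ X : Finset (ι × ι), X = fl (P ×ˢ P) (fun p => Cr R p.1 p.2 ∧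
      ¬ Sm R P (s / 2) p.2 ∧ eta R P p.1 / σ = eta R P p.2 / σ) := ⟨_, rfl⟩
    rw [← hX]
    calc ∑ i ∈ E, d i ≤ ∑ i ∈ E, (X.filter (fun p => p.2 = i)).card := by
          refine Finset.sum_le_sum fun i hi => ?_
          rw [hd]
          refine Finset.card_le_card_of_injOn (fun v => (v, i)) ?_ ?_
          · intro v hv
            obtain ⟨hvB, hvc⟩ := mem_fl.1 (Finset.mem_coe.1 hv)
            obtain ⟨hvE, hvu⟩ := (hBmem _ v).1 hvB
            rw [Finset.mem_coe, Finset.mem_filter]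
            refine ⟨?_, rfl⟩
            rw [hX]
            exact mem_fl.2 ⟨Finset.mem_product.2 ⟨hEP hvE, hEP hi⟩, hvc, (hES i hi).2, hvu⟩
          · intro v _ v' _ h
            exact congrArg Prod.fst h
      _ ≤ X.card := by
          rw [← Finset.card_biUnion]
          · refine Finset.card_le_card ?_
            intro p hp
            obtain ⟨i, _, hi⟩ := Finset.mem_biUnion.1 hp
            exact (Finset.mem_filter.1 hi).1
          · intro i _ j _ hij
            rw [Function.onFun, Finset.disjoint_left]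
            intro p hp hp'
            exact hij (((Finset.mem_filter.1 hp).2).symm.trans (Finset.mem_filter.1 hp').2)
  have hcrc := h3 ι R P w (s / 2) σ hNP hdeg hσ1 hσ2
  have hsum2 : (∑ i ∈ E, d i) * s ≤ 1024 * (b + 1) * w ^ 2 * E.card := by
    have h6 : (∑ i ∈ E, d i) * σ ≤ ((b + 1) * E.card) * (16 * w) ^ 2 :=
      (Nat.mul_le_mul_right _ hsum).trans (hcrc.trans (Nat.mul_le_mul_right _ hPE))
    calc (∑ i ∈ E, d i) * s ≤ (∑ i ∈ E, d i) * (4 * σ) := Nat.mul_le_mul_left _ hσ4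
      _ = 4 * ((∑ i ∈ E, d i) * σ) := by ring
      _ ≤ 4 * (((b + 1) * E.card) * (16 * w) ^ 2) := Nat.mul_le_mul_left _ h6
      _ = 1024 * (b + 1) * w ^ 2 * E.card := by ring
  -- half of the members have few crossings
  obtain ⟨E', hE'⟩ : ∃ E' : Finset ι, E' = fl E (fun i => d i * s ≤ 2048 * (b + 1) * w ^ 2) :=
    ⟨_, rfl⟩
  have hE'E : E' ⊆ E := by rw [hE']; exact fl_subset _ _
  have hhalf : E.card ≤ 2 * E'.card := by
    have h6 : (E \ E').card + E'.card = E.card := Finset.card_sdiff_add_card_eq_card hE'E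
    have h7 : (E \ E').card * (2048 * (b + 1) * w ^ 2) ≤ 1024 * (b + 1) * w ^ 2 * E.card := by
      refine le_trans ?_ hsum2
      calc (E \ E').card * (2048 * (b + 1) * w ^ 2)
          ≤ ∑ i ∈ E \ E', d i * s := by
            rw [← smul_eq_mul]
            refine Finset.card_nsmul_le_sum _ _ _ fun i hi => ?_
            obtain ⟨hiE, hiE'⟩ := Finset.mem_sdiff.1 hi
            by_contra hlt
            push Not at hlt
            apply hiE'
            rw [hE']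
            exact mem_fl.2 ⟨hiE, hlt.le⟩
        _ ≤ ∑ i ∈ E, d i * s :=
            Finset.sum_le_sum_of_subset (Finset.sdiff_subset)
        _ = (∑ i ∈ E, d i) * s := by rw [Finset.sum_mul]
    have h8 : 0 < 1024 * (b + 1) * w ^ 2 := by positivity
    have h9 : 2 * (E \ E').card ≤ E.card := by
      apply Nat.le_of_mul_le_mul_left _ h8
      calc 1024 * (b + 1) * w ^ 2 * (2 * (E \ E').card)
          = (E \ E').card * (2048 * (b + 1) * w ^ 2) := by ring
        _ ≤ 1024 * (b + 1) * w ^ 2 * E.card := h7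
    omega
  -- the popular block
  obtain ⟨U, hU⟩ : ∃ U : ℕ, U = w / σ + 1 := ⟨_, rfl⟩
  obtain ⟨u, huU, hcu⟩ := thc_pig E' (fun i => eta R P i / σ) U
    (by rw [hU]; exact Nat.succ_le_succ (Nat.zero_le _)) (by
    intro i hi
    have h6 := thc_eta_le (hNP i (hEP (hE'E hi))) hDP
    have h7 : eta R P i / σ ≤ w / σ := Nat.div_le_div_right h6
    show eta R P i / σ < U
    rw [hU]
    exact Nat.lt_succ_of_le h7)
  obtain ⟨E2, hE2⟩ : ∃ E2 : Finset ι, E2 = fl E' (fun i => eta R P i / σ = u) := ⟨_, rfl⟩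
  rw [← hE2] at hcu
  have hE2m : ∀ i ∈ E2, i ∈ E ∧ eta R P i / σ = u ∧ d i * s ≤ 2048 * (b + 1) * w ^ 2 := by
    intro i hi
    rw [hE2] at hi
    obtain ⟨hi1, hi2⟩ := mem_fl.1 hi
    rw [hE'] at hi1
    obtain ⟨hi3, hi4⟩ := mem_fl.1 hi1
    exact ⟨hi3, hi2, hi4⟩
  -- the popular class of the number of crossings
  obtain ⟨κ, hκ⟩ : ∃ κ : ι → ℕ, κ = fun i => if d i < 8 * s then 0 else
      Nat.log 2 (d i / (8 * s)) + 1 := ⟨_, rfl⟩
  have h8s : 0 < 8 * s := by omega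
  have hκs : ∀ i, 8 * s ≤ d i → 2 ^ (κ i - 1) * (8 * s) ≤ d i ∧
      d i < 2 * (2 ^ (κ i - 1) * (8 * s)) ∧ 1 ≤ κ i := by
    intro i hi
    have h6 : κ i = Nat.log 2 (d i / (8 * s)) + 1 := by
      rw [hκ]
      exact if_neg (by omega)
    have h7 : 1 ≤ d i / (8 * s) := (Nat.one_le_div_iff h8s).2 hi
    have h8 : κ i - 1 = Nat.log 2 (d i / (8 * s)) := by omega
    have h9 := Nat.pow_log_le_self 2 (x := d i / (8 * s)) (by omega)
    have h10 := Nat.lt_pow_succ_log_self (b := 2) (by norm_num) (d i / (8 * s))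
    rw [← h8] at h9 h10
    refine ⟨?_, ?_, by omega⟩
    · exact (Nat.mul_le_mul_right _ h9).trans (Nat.div_mul_le_self _ _)
    · have h11 := Nat.lt_mul_div_succ (d i) h8s
      have h12 : d i / (8 * s) + 1 ≤ 2 ^ (κ i - 1) * 2 := by
        rw [← pow_succ]
        exact h10
      have h13 := Nat.mul_le_mul_left (8 * s) h12
      have h14 : 8 * s * (2 ^ (κ i - 1) * 2) = 2 * (2 ^ (κ i - 1) * (8 * s)) := by ring
      omega
  obtain ⟨k, hkA, hck⟩ := thc_pig E2 κ (3 * b + 10) (by omega) (by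
    intro i hi
    obtain ⟨_, _, hds⟩ := hE2m i hi
    by_cases h6 : d i < 8 * s
    · have h7 : κ i = 0 := by
        rw [hκ]
        exact if_pos h6
      omega
    · obtain ⟨h7, _, h8⟩ := hκs i (by omega)
      have h9 : 2 ^ (κ i - 1) * 8 ≤ 2048 * (b + 1) * w ^ 2 := by
        calc 2 ^ (κ i - 1) * 8 = 2 ^ (κ i - 1) * (8 * 1) * 1 := by ring
          _ ≤ 2 ^ (κ i - 1) * (8 * s) * s :=
              Nat.mul_le_mul (Nat.mul_le_mul_left _ (Nat.mul_le_mul_left _ hs1)) hs1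
          _ ≤ d i * s := Nat.mul_le_mul_right _ h7
          _ ≤ 2048 * (b + 1) * w ^ 2 := hds
      have h10 : b + 1 ≤ 2 ^ b := Nat.lt_two_pow_self
      have h11 : w ^ 2 ≤ (2 ^ b) ^ 2 := Nat.pow_le_pow_left hwb.le 2
      have h12 : 2048 * (b + 1) * w ^ 2 ≤ 2048 * 2 ^ b * (2 ^ b) ^ 2 :=
        Nat.mul_le_mul (Nat.mul_le_mul_left _ h10) h11
      have h13 : 2048 * 2 ^ b * (2 ^ b) ^ 2 = 2 ^ (3 * b + 8) * 8 := by
        have h16 : (2 : ℕ) ^ (3 * b + 8) = (2 ^ b) ^ 3 * 2 ^ 8 := by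
          rw [pow_add, mul_comm 3 b, pow_mul]
        rw [h16]
        ring
      have h14 : 2 ^ (κ i - 1) ≤ 2 ^ (3 * b + 8) := by
        apply Nat.le_of_mul_le_mul_right _ (show 0 < 8 by norm_num)
        omega
      have h15 := (Nat.pow_le_pow_iff_right (by norm_num : 1 < 2)).1 h14
      omega)
  obtain ⟨F, hF⟩ : ∃ F : Finset ι, F = fl E2 (fun i => κ i = k) := ⟨_, rfl⟩
  rw [← hF] at hck
  have hFm : ∀ i ∈ F, i ∈ E ∧ eta R P i / σ = u ∧ κ i = k := by
    intro i hi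
    rw [hF] at hi
    obtain ⟨hi1, hi2⟩ := mem_fl.1 hi
    obtain ⟨hi3, hi4, _⟩ := hE2m i hi1
    exact ⟨hi3, hi4, hi2⟩
  have hFB : F ⊆ B u := fun i hi => (hBmem u i).2 ⟨(hFm i hi).1, (hFm i hi).2.1⟩
  have hFP : F ⊆ P := fun i hi => hEP (hFm i hi).1
  have hdF : ∀ i ∈ F, d i = (fl (B u) (fun v => Cr R v i)).card := by
    intro i hi
    rw [hd]
    show (fl (B (eta R P i / σ)) (fun v => Cr R v i)).card = _
    rw [(hFm i hi).2.1]
  have hdeg2 : ∀ i ∈ F, (fl F (fun j => Cr R j i)).card ≤ 8 * s := by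
    by_cases hk0 : k = 0
    · intro i hi
      have h6 : d i < 8 * s := by
        by_contra hno
        have h7 := (hκs i (by omega)).2.2
        have h8 := (hFm i hi).2.2
        omega
      rw [hdF i hi] at h6
      refine le_trans (Finset.card_le_card ?_) h6.le
      intro j hj
      obtain ⟨hj1, hj2⟩ := mem_fl.1 hj
      exact mem_fl.2 ⟨hFB hj1, hj2⟩
    · refine h4 ι R (B u) F (8 * s) (2 ^ (k - 1) * (8 * s)) hFB
        (fun i hi => hNP i (hEP ((hBmem u i).1 hi).1)) (hBD u) ?_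
      intro i hi
      have h6 : 8 * s ≤ d i := by
        by_contra hno
        have h7 : κ i = 0 := by
          rw [hκ]
          exact if_pos (by omega)
        have h8 := (hFm i hi).2.2
        omega
      obtain ⟨h7, h8, _⟩ := hκs i h6
      rw [(hFm i hi).2.2] at h7 h8
      rw [← hdF i hi]
      exact ⟨h7, h8⟩
  obtain ⟨T, hTF, hI, hTc⟩ := h5 ι R F s hs1 (fun i hi => hNP i (hFP hi))
    (thb_depth_mono hFB (hBD u)) hdeg2
  refine ⟨T, hTF.trans (hFP.trans hPJ), hI, ?_⟩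
  have hUs : U * s ≤ 6 * w := by
    have h6 : w / σ * s ≤ w / σ * (4 * σ) := Nat.mul_le_mul_left _ hσ4
    have h7 : w / σ * (4 * σ) = 4 * (w / σ * σ) := by ring
    have h8 : w / σ * σ ≤ w := Nat.div_mul_le_self _ _
    have h9 : U * s = w / σ * s + s := by rw [hU]; ring
    omega
  have hA : (b + 1) * (3 * b + 10) ≤ 26 * b ^ 2 := by
    have h6 : b + 1 ≤ 2 * b := by omega
    have h7 : 3 * b + 10 ≤ 13 * b := by omega
    calc (b + 1) * (3 * b + 10) ≤ (2 * b) * (13 * b) := Nat.mul_le_mul h6 h7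
      _ = 26 * b ^ 2 := by ring
  calc J.card ≤ 2 * P.card := hPc
    _ ≤ 2 * ((b + 1) * E.card) := Nat.mul_le_mul_left _ hPE
    _ ≤ 2 * ((b + 1) * (2 * E'.card)) := Nat.mul_le_mul_left _ (Nat.mul_le_mul_left _ hhalf)
    _ ≤ 2 * ((b + 1) * (2 * (U * E2.card))) :=
        Nat.mul_le_mul_left _ (Nat.mul_le_mul_left _ (Nat.mul_le_mul_left _ hcu))
    _ ≤ 2 * ((b + 1) * (2 * (U * ((3 * b + 10) * F.card)))) :=
        Nat.mul_le_mul_left _ (Nat.mul_le_mul_left _ (Nat.mul_le_mul_left _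
          (Nat.mul_le_mul_left _ hck)))
    _ ≤ 2 * ((b + 1) * (2 * (U * ((3 * b + 10) * (400 * s * T.card))))) :=
        Nat.mul_le_mul_left _ (Nat.mul_le_mul_left _ (Nat.mul_le_mul_left _
          (Nat.mul_le_mul_left _ (Nat.mul_le_mul_left _ hTc))))
    _ = 1600 * ((b + 1) * (3 * b + 10)) * (U * s) * T.card := by ring
    _ ≤ 1600 * (26 * b ^ 2) * (6 * w) * T.card :=
        Nat.mul_le_mul_right _ (Nat.mul_le_mul (Nat.mul_le_mul_left _ hA) hUs)
    _ = 249600 * b ^ 2 * w * T.card := by ring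
    _ ≤ 250000 * b ^ 2 * w * T.card :=
        Nat.mul_le_mul_right _ (Nat.mul_le_mul_right _ (Nat.mul_le_mul_right _ (by norm_num)))
    _ = 250000 * (Nat.log 2 w + 1) ^ 2 * w * T.card := by rw [hb]

end Wn
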